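import Pool.Agent.Q287.CV.Stm

/-!
# Numerical sum for the chaining

Job CV-CHS of project CV (helper287), by helper239.
-/

set_option autoImplicit false

namespace Pool.Agent.Q239.CV

open Finset

theorem t_CHS : Q287.CV.S_Chs := by
  intro D lam J hD hlam
  set X : ℝ := lam / (64 * D) with hX
  have hX24 : 24 ≤ X := by
    rw [hX, le_div_iff₀ (by positivity)]
    linarith
  have h1 : lam / (128 * D) = X / 2 := by
    rw [hX]
    field_simp
    ring
  have h2 : lam / (192 * D) = X / 3 := by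
    rw [hX]
    field_simp
    ring
  rw [h1, h2]
  set q : ℝ := Real.exp (-X) with hq
  have hq0 : 0 < q := Real.exp_pos _
  have hq16 : 16 * q ≤ 1 := by
    have h3 : 1 + X ≤ Real.exp X := by
      have := Real.add_one_le_exp X
      linarith
    have h4 : q * Real.exp X = 1 := by
      rw [hq, ← Real.exp_add]
      simp
    nlinarith
  have hterm : ∀ j ∈ Finset.Ico 1 J, 8 ^ j * Real.exp (-(2 ^ j * X)) ≤ (1 / 2 : ℝ) ^ j * q := by
    intro j hj
    have hj1 : 1 ≤ j := (Finset.mem_Ico.1 hj).1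
    have h3 : ((j : ℝ) + 1) ≤ 2 ^ j := by
      have h4 : j + 1 ≤ 2 ^ j := Nat.lt_two_pow_self
      exact_mod_cast h4
    have h5 : Real.exp (-(2 ^ j * X)) ≤ q ^ (j + 1) := by
      rw [hq, ← Real.exp_nat_mul]
      refine Real.exp_le_exp.2 ?_
      push_cast
      nlinarith
    have h6 : (16 * q) ^ j ≤ 1 := pow_le_one₀ (by positivity) hq16
    have h7 : (8 : ℝ) ^ j * q ^ (j + 1) = (1 / 2 : ℝ) ^ j * q * (16 * q) ^ j := by
      rw [mul_pow, pow_succ]
      have h8 : (8 : ℝ) ^ j = (1 / 2) ^ j * 16 ^ j := by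
        rw [← mul_pow]
        norm_num
      rw [h8]
      ring
    calc 8 ^ j * Real.exp (-(2 ^ j * X)) ≤ 8 ^ j * q ^ (j + 1) :=
          mul_le_mul_of_nonneg_left h5 (by positivity)
      _ = (1 / 2 : ℝ) ^ j * q * (16 * q) ^ j := h7
      _ ≤ (1 / 2 : ℝ) ^ j * q * 1 := mul_le_mul_of_nonneg_left h6 (by positivity)
      _ = _ := by ring
  have hgeo : ∑ j ∈ Finset.Ico 1 J, (1 / 2 : ℝ) ^ j ≤ 1 := by
    have h3 : ∀ J : ℕ, ∑ j ∈ Finset.Ico 1 J, (1 / 2 : ℝ) ^ j ≤ 1 - (1 / 2) ^ (J - 1) := by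
      intro J
      induction J with
      | zero => simp
      | succ J ih =>
        rcases Nat.eq_zero_or_pos J with h | h
        · subst h
          simp
        · rw [Finset.sum_Ico_succ_top h]
          have h4 : J + 1 - 1 = (J - 1) + 1 := by omega
          have h5 : (1 / 2 : ℝ) ^ J = (1 / 2) ^ (J - 1) * (1 / 2) := by
            rw [← pow_succ, Nat.sub_add_cancel h]
          rw [h4, pow_succ, h5]
          linarith
    refine (h3 J).trans ?_
    have : (0 : ℝ) ≤ (1 / 2) ^ (J - 1) := by positivity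
    linarith
  have hsum : ∑ j ∈ Finset.Ico 1 J, 8 ^ j * Real.exp (-(2 ^ j * X)) ≤ q := by
    calc ∑ j ∈ Finset.Ico 1 J, 8 ^ j * Real.exp (-(2 ^ j * X))
        ≤ ∑ j ∈ Finset.Ico 1 J, (1 / 2 : ℝ) ^ j * q := Finset.sum_le_sum hterm
      _ = (∑ j ∈ Finset.Ico 1 J, (1 / 2 : ℝ) ^ j) * q := by rw [Finset.sum_mul]
      _ ≤ 1 * q := mul_le_mul_of_nonneg_right hgeo hq0.le
      _ = q := one_mul q
  have h8 : Real.exp (-(X / 2)) ≤ Real.exp (-(X / 3)) := Real.exp_le_exp.2 (by linarith)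
  have h9 : q ≤ Real.exp (-(X / 3)) := Real.exp_le_exp.2 (by linarith)
  have h10 : ∑ j ∈ Finset.Ico 1 J, 32 * 8 ^ j / D * Real.exp (-(2 ^ j * X)) =
      32 / D * ∑ j ∈ Finset.Ico 1 J, 8 ^ j * Real.exp (-(2 ^ j * X)) := by
    rw [Finset.mul_sum]
    refine Finset.sum_congr rfl fun j _ => ?_
    ring
  rw [h10, ← mul_add]
  have h11 : (0 : ℝ) ≤ 32 / D := by positivity
  calc 32 / D * (Real.exp (-(X / 2)) + ∑ j ∈ Finset.Ico 1 J, 8 ^ j * Real.exp (-(2 ^ j * X)))
      ≤ 32 / D * (2 * Real.exp (-(X / 3))) := mul_le_mul_of_nonneg_left (by linarith) h11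
    _ = 64 / D * Real.exp (-(X / 3)) := by ring

end Pool.Agent.Q239.CV
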