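import Pool.Agent.Q287.CV.Stm

/-!
# Probability that an edge of the chain fails

Job CV-EDGE of project CV (helper287), by helper239.
-/

set_option autoImplicit false

namespace Pool.Agent.Q239.CV

open Finset Q287.CV

theorem t_EDGE (h1 : S_Exc2) (h2 : S_Gr) : S_Edge := by
  intro V _ _ _ _ G _ hG hc x u v huv m j hm
  obtain ⟨-, -, hpos, -, -, -, -, -, -, -, -, -, -⟩ := h2 V G hG hc
  have hR : 0 < Rs G u v := hpos u v huv
  have hdu : (0 : ℝ) < G.degree u := by exact_mod_cast deg_pos G hG hc u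
  have hdv : (1 : ℝ) ≤ G.degree v := by exact_mod_cast deg_pos G hG hc v
  have hdv0 : (0 : ℝ) < G.degree v := by linarith
  have hm0 : 0 < m := lt_of_lt_of_le (by positivity) hm
  set du : ℝ := (G.degree u : ℝ) with hdudef
  set dv : ℝ := (G.degree v : ℝ) with hdvdef
  set R : ℝ := Rs G u v with hRdef
  set q : ℝ := (1 / 2 : ℝ) ^ (j + 3) with hq
  have hq0 : 0 < q := by positivity
  have hqm : 1 ≤ q * m := by
    have h3 : q * 2 ^ (j + 3) = 1 := by
      rw [hq, ← mul_pow]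
      norm_num
    nlinarith
  set θ : ℝ := 1 / 2 + (1 / 2 : ℝ) ^ (j + 1) with hθ
  set θ' : ℝ := 1 / 2 + (1 / 2 : ℝ) ^ (j + 2) with hθ'
  have hθq : θ = 1 / 2 + 4 * q := by
    rw [hθ, hq, pow_succ, pow_add]
    ring
  have hθq' : θ' = 1 / 2 + 2 * q := by
    rw [hθ', hq, pow_add, pow_add]
    ring
  set k : ℕ := ⌈θ ^ 2 * m * du⌉₊ with hk
  set a : ℕ := ⌈θ' ^ 2 * m * dv⌉₊ with ha
  set M : ℝ := Real.sqrt m with hM
  have hM0 : 0 < M := Real.sqrt_pos.2 hm0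
  have hM2 : M ^ 2 = m := Real.sq_sqrt hm0.le
  have hkl : θ ^ 2 * m ≤ (k : ℝ) / du := by
    rw [le_div_iff₀ hdu]
    exact Nat.le_ceil _
  have hau : (a : ℝ) / dv ≤ θ' ^ 2 * m + 1 := by
    rw [div_le_iff₀ hdv0]
    have h3 : (a : ℝ) < θ' ^ 2 * m * dv + 1 := Nat.ceil_lt_add_one (by positivity)
    nlinarith
  have hB : θ * M ≤ Real.sqrt ((k : ℝ) / du) := by
    refine Real.le_sqrt_of_sq_le ?_
    rw [mul_pow, hM2]
    exact hkl
  have hA : Real.sqrt ((a : ℝ) / dv) ≤ θ' * M + 1 / M := by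
    have h3 : 0 ≤ θ' * M + 1 / M := by positivity
    refine Real.sqrt_le_iff.2 ⟨h3, hau.trans ?_⟩
    have h4 : (θ' * M + 1 / M) ^ 2 = θ' ^ 2 * M ^ 2 + 2 * θ' + (1 / M) ^ 2 := by
      field_simp
      ring
    rw [h4, hM2]
    have h5 : 0 ≤ (1 / M) ^ 2 := by positivity
    rw [hθq']
    nlinarith
  have hD : q * M ≤ Real.sqrt ((k : ℝ) / du) - Real.sqrt ((a : ℝ) / dv) := by
    have h3 : 1 / M ≤ q * M := by
      rw [div_le_iff₀ hM0]
      nlinarith
    have h4 : θ * M - θ' * M = 2 * (q * M) := by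
      rw [hθq, hθq']
      ring
    linarith
  have hqM : 0 < q * M := by positivity
  have hle : (a : ℝ) / dv ≤ (k : ℝ) / du := by
    have h3 : Real.sqrt ((a : ℝ) / dv) ≤ Real.sqrt ((k : ℝ) / du) := by linarith
    exact (Real.sqrt_le_sqrt_iff (by positivity)).1 h3
  refine (h1 V G hG hc u v huv x k a hle).trans ?_
  refine Real.exp_le_exp.2 ?_
  have h5 : (q * M) ^ 2 ≤ (Real.sqrt ((k : ℝ) / du) - Real.sqrt ((a : ℝ) / dv)) ^ 2 :=
    pow_le_pow_left₀ hqM.le hD 2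
  have h6 : (1 / 4 : ℝ) ^ j * m / (64 * R) = (q * M) ^ 2 / R := by
    have h7 : q ^ 2 = (1 / 4 : ℝ) ^ j / 64 := by
      rw [hq, ← pow_mul, mul_comm, pow_mul, pow_add]
      norm_num
      ring
    rw [mul_pow, hM2, h7]
    field_simp
  rw [h6]
  have h8 := div_le_div_of_nonneg_right h5 hR.le
  linarith

end Pool.Agent.Q239.CV
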