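import Pool.Agent.Q287.CV.Stm

/-!
# Optimisation of the exponential bound

Job CV-EXC2 of project CV (helper287), by helper239.
-/

set_option autoImplicit false

namespace Pool.Agent.Q239.CV

open Finset Filter Topology Q287.CV

theorem t_EXC2 (h1 : S_Exc1) (h2 : S_Gr) : S_Exc2 := by
  intro V _ _ _ _ G _ hG hc u y huy x k a hak
  obtain ⟨-, -, hpos, -, -, -, -, -, hdeg, -, -, -, -⟩ := h2 V G hG hc
  have hR : 0 < Rs G u y := hpos u y huy
  have hdu : (0 : ℝ) < G.degree u := by exact_mod_cast deg_pos G hG hc u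
  have hdy : (0 : ℝ) < G.degree y := by exact_mod_cast deg_pos G hG hc y
  have hp1 : 1 / ((G.degree u : ℝ) * Rs G u y) ≤ 1 := by
    rw [div_le_one (by positivity)]
    exact hdeg u y huy
  have h3 := h1 V G hG hc u y huy x k a
  set R : ℝ := Rs G u y with hRdef
  set du : ℝ := (G.degree u : ℝ) with hdudef
  set dy : ℝ := (G.degree y : ℝ) with hdydef
  set P : ℝ := Pr G x (Low u k y a) with hP
  set p : ℝ := 1 / (du * R) with hp
  set g : ℝ := 1 / (dy * R) with hg
  have hp0 : 0 < p := by positivity
  have hg0 : 0 < g := by positivity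
  have key : ∀ s : ℝ, 0 ≤ s → P ≤ Real.exp (a * s - k * (p * s / (s + g))) := by
    intro s hs
    have h4 := h3 s hs
    have h5 : (1 + s) ^ a ≤ Real.exp (a * s) := by
      rw [Real.exp_nat_mul]
      refine pow_le_pow_left₀ (by linarith) ?_ a
      have := Real.add_one_le_exp s
      linarith
    have ht0 : 0 ≤ p * s / (s + g) := by positivity
    have ht1 : p * s / (s + g) ≤ 1 := by
      rw [div_le_one (by positivity)]
      nlinarith
    have h6 : (1 - p * s / (s + g)) ^ k ≤ Real.exp (-(k * (p * s / (s + g)))) := by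
      have h7 : -((k : ℝ) * (p * s / (s + g))) = k * (-(p * s / (s + g))) := by ring
      rw [h7, Real.exp_nat_mul]
      refine pow_le_pow_left₀ (by linarith) ?_ k
      have := Real.add_one_le_exp (-(p * s / (s + g)))
      linarith
    have h8 : 0 ≤ (1 - p * s / (s + g)) ^ k := pow_nonneg (by linarith) k
    calc P ≤ (1 + s) ^ a * (1 - p * s / (s + g)) ^ k := h4
      _ ≤ Real.exp (a * s) * Real.exp (-(k * (p * s / (s + g)))) :=
          mul_le_mul h5 h6 h8 (Real.exp_pos _).le
      _ = _ := by
          rw [← Real.exp_add]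
          ring_nf
  rcases Nat.eq_zero_or_pos a with ha | ha
  · subst ha
    have h9 : ∀ s : ℝ, 0 < s → P ≤ Real.exp (-(k * (p * (1 - g / (s + g))))) := by
      intro s hs
      refine (key s hs.le).trans (le_of_eq ?_)
      congr 1
      have hsg : s + g ≠ 0 := by positivity
      field_simp
      push_cast
      ring
    have h10 : Tendsto (fun s : ℝ => Real.exp (-(k * (p * (1 - g / (s + g)))))) atTop
        (𝓝 (Real.exp (-(k * (p * (1 - 0)))))) := by
      refine (Real.continuous_exp.tendsto _).comp ?_
      refine Tendsto.neg (Tendsto.const_mul _ (Tendsto.const_mul _ (Tendsto.const_sub _ ?_)))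
      exact tendsto_const_nhds.div_atTop (tendsto_atTop_add_const_right _ g tendsto_id)
    have h11 : P ≤ Real.exp (-(k * (p * (1 - 0)))) :=
      ge_of_tendsto h10 ((eventually_gt_atTop 0).mono fun s hs => h9 s hs)
    refine h11.trans (le_of_eq ?_)
    congr 1
    have h12 : Real.sqrt (((0 : ℕ) : ℝ) / dy) = 0 := by simp
    rw [h12, sub_zero (Real.sqrt _), Real.sq_sqrt (by positivity), hp]
    field_simp
    ring
  · have haR : (0 : ℝ) < a := by exact_mod_cast ha
    set A : ℝ := Real.sqrt ((a : ℝ) / dy) with hA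
    set B : ℝ := Real.sqrt ((k : ℝ) / du) with hB
    have hA0 : 0 < A := Real.sqrt_pos.2 (by positivity)
    have hAB : A ≤ B := Real.sqrt_le_sqrt hak
    have hB0 : 0 < B := lt_of_lt_of_le hA0 hAB
    have hA2 : A ^ 2 = a / dy := Real.sq_sqrt (by positivity)
    have hB2 : B ^ 2 = k / du := Real.sq_sqrt (by positivity)
    have hak1 : (a : ℝ) = A ^ 2 * dy := by
      rw [hA2]
      field_simp
    have hkB : (k : ℝ) = B ^ 2 * du := by
      rw [hB2]
      field_simp
    have hs0 : 0 ≤ (B / A - 1) * g := by
      refine mul_nonneg ?_ hg0.le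
      rw [sub_nonneg, le_div_iff₀ hA0]
      linarith
    refine (key ((B / A - 1) * g) hs0).trans (le_of_eq ?_)
    congr 1
    have e1 : (B / A - 1) * g + g = B / A * g := by ring
    have e2 : p * ((B / A - 1) * g) / (B / A * g) = p * ((B - A) / B) := by
      field_simp
    rw [e1, e2, hak1, hkB, hp, hg]
    field_simp
    ring

end Pool.Agent.Q239.CV
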